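import Pool.Graph.R_seed8.Results.MP_4b1745_al.OneVariable

/-!
# The structure of algebraically closed associative algebras

Let `R` be a nonzero algebra over a field `P` such that every equation over `R` in countably many
unknowns has a solution. Then `R` is a skew field with centre `P`, the equations `a x - x b = c` are
solvable in `R` unless `a = b ∈ P`, and equations in any number of unknowns are solvable.
-/

set_option autoImplicit false

open Pool.Agent.Results.MP_4b1745_al.OneVariable

namespace Pool.Agent.H59.ACS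

universe u v w z

variable {P : Type u} {R : Type v} [Field P] [Ring R] [Algebra P R]

/-- change of the variables -/
noncomputable def ren {I : Type w} {J : Type z} (e : I → J) : FreeOver P R I →ₐ[P] FreeOver P R J :=
  lift (const P R J) (fun i => var P R J (e i))

lemma ren_const {I : Type w} {J : Type z} (e : I → J) (a : R) :
    ren e (const P R I a) = const P R J a := lift_const _ _ _

lemma ren_var {I : Type w} {J : Type z} (e : I → J) (i : I) :
    ren e (var P R I i) = var P R J (e i) := lift_var _ _ _

lemma evalAt_const {I : Type w} (c : I → R) (a : R) : evalAt c (const P R I a) = a :=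
  lift_const _ _ _

lemma evalAt_var {I : Type w} (c : I → R) (i : I) : evalAt c (var P R I i) = c i :=
  lift_var _ _ _

lemma evalAt_ren {I : Type w} {J : Type z} (e : I → J) (c : J → R) (f : FreeOver P R I) :
    evalAt c (ren e f) = evalAt (fun i => c (e i)) f := by
  have h : ((evalAt c).comp (ren e) : FreeOver P R I →ₐ[P] R) = evalAt (fun i => c (e i)) := by
    apply hom_ext'
    · intro a; simp [ren_const, evalAt_const]
    · intro i; simp [ren_var, evalAt_var]
  exact DFunLike.congr_fun h f

/-- finitely many variables are involved -/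
lemma support {I : Type w} (f : FreeOver P R I) : ∃ s : Finset I, ∀ (J : Type z) (e : I → J)
    (g : J → I), (∀ i ∈ s, g (e i) = i) → ren g (ren e f) = f := by
  classical
  induction f using induct with
  | hc a => exact ⟨∅, fun J e g _ => by rw [ren_const, ren_const]⟩
  | hv i => exact ⟨{i}, fun J e g h => by rw [ren_var, ren_var, h i (Finset.mem_singleton_self i)]⟩
  | hadd f g hf hg =>
    obtain ⟨s, hs⟩ := hf
    obtain ⟨t, ht⟩ := hg
    exact ⟨s ∪ t, fun J e g h => by
      rw [map_add, map_add, hs J e g fun i hi => h i (Finset.mem_union_left _ hi),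
        ht J e g fun i hi => h i (Finset.mem_union_right _ hi)]⟩
  | hmul f g hf hg =>
    obtain ⟨s, hs⟩ := hf
    obtain ⟨t, ht⟩ := hg
    exact ⟨s ∪ t, fun J e g h => by
      rw [map_mul, map_mul, hs J e g fun i hi => h i (Finset.mem_union_left _ hi),
        ht J e g fun i hi => h i (Finset.mem_union_right _ hi)]⟩

lemma all_const {I : Type w} [IsEmpty I] (f : FreeOver P R I) : f ∈ Set.range (const P R I) := by
  induction f using induct with
  | hc a => exact ⟨a, rfl⟩
  | hv i => exact isEmptyElim i
  | hadd f g hf hg =>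
    obtain ⟨a, rfl⟩ := hf
    obtain ⟨b, rfl⟩ := hg
    exact ⟨a + b, map_add _ _ _⟩
  | hmul f g hf hg =>
    obtain ⟨a, rfl⟩ := hf
    obtain ⟨b, rfl⟩ := hg
    exact ⟨a * b, map_mul _ _ _⟩

/-- equations in any number of unknowns -/
theorem allUnknowns (h : AlgClosedIn P R ℕ) (I : Type w) : AlgClosedIn P R I := by
  intro f hf
  rcases isEmpty_or_nonempty I with hI | hI
  · exact absurd (all_const f) hf
  · obtain ⟨s, hs⟩ := support.{u, v, w, 0} f
    obtain ⟨e, he⟩ := Set.countable_iff_exists_injOn.1 s.countable_toSet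
    have hg : ∀ i ∈ s, Function.invFunOn e s (e i) = i := fun i hi =>
      he.leftInvOn_invFunOn (Finset.mem_coe.2 hi)
    obtain ⟨c, hc⟩ := h (ren e f) (by
      rintro ⟨r, hr⟩
      apply hf
      refine ⟨r, ?_⟩
      rw [← hs ℕ e _ hg, ← hr, ren_const])
    exact ⟨fun i => c (e i), by rw [← evalAt_ren]; exact hc⟩

/-- `a x - x b` is a constant only if `a = b ∈ P` -/
lemma sylv_const [Nontrivial R] {I : Type w} (i : I) (a b s : R)
    (h : const P R I s = const P R I a * var P R I i - var P R I i * const P R I b) :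
    ∃ r : P, a = algebraMap P R r ∧ b = algebraMap P R r := by
  have hs : s = 0 := by
    have h1 := congrArg (evalAt (fun _ => (0 : R))) h
    simpa [evalAt_const, evalAt_var] using h1
  subst hs
  rw [map_zero] at h
  have key : ∀ T : Module.End P R, ∀ v : R, a * T v = T (b * v) := by
    intro T v
    have h1 := congrArg (lift (Algebra.lmul P R) (fun _ : I => T)) h
    rw [map_zero, map_sub, map_mul, map_mul, lift_const, lift_const, lift_var] at h1
    have h2 := LinearMap.congr_fun h1 v
    have h3 : (0 : R) = a * T v - T (b * v) := h2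
    exact (sub_eq_zero.1 h3.symm)
  have hab : a = b := by
    have := key LinearMap.id 1
    simpa using this
  subst hab
  by_contra hcon
  have ha : a ∉ Set.range (algebraMap P R) := by
    rintro ⟨r, rfl⟩
    exact hcon ⟨r, rfl, rfl⟩
  have hli : LinearIndependent P ![(1 : R), a] := by
    rw [LinearIndependent.pair_iff' one_ne_zero]
    intro c hc
    exact ha ⟨c, by rw [Algebra.algebraMap_eq_smul_one]; exact hc⟩
  obtain ⟨g, hg⟩ : ∃ g : R →ₗ[P] P, g 1 = 0 ∧ g a = 1 := by
    set b := Module.Basis.span hli with hb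
    have hb0 : ((b 0 : Submodule.span P (Set.range ![(1 : R), a])) : R) = 1 := by
      rw [hb, Module.Basis.span_apply]; rfl
    have hb1 : ((b 1 : Submodule.span P (Set.range ![(1 : R), a])) : R) = a := by
      rw [hb, Module.Basis.span_apply]; rfl
    obtain ⟨g, hg⟩ := LinearMap.exists_extend (b.coord 1)
    refine ⟨g, ?_, ?_⟩
    · have h1 : g ((b 0 : Submodule.span P (Set.range ![(1 : R), a])) : R) = b.coord 1 (b 0) := by
        rw [← hg]; rfl
      rw [← hb0, h1]
      simp [Module.Basis.coord_apply, Module.Basis.repr_self]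
    · have h1 : g ((b 1 : Submodule.span P (Set.range ![(1 : R), a])) : R) = b.coord 1 (b 1) := by
        rw [← hg]; rfl
      rw [← hb1, h1]
      simp [Module.Basis.coord_apply, Module.Basis.repr_self]
  have h3 := key (g.smulRight (1 : R)) 1
  rw [mul_one, LinearMap.smulRight_apply, LinearMap.smulRight_apply, hg.1, hg.2, zero_smul,
    mul_zero, one_smul] at h3
  exact one_ne_zero h3.symm

/-- the equations `a x - x b = c` -/
theorem sylv [Nontrivial R] (h : AlgClosedIn P R ℕ) (a b c : R)
    (hab : ¬ ∃ r : P, a = algebraMap P R r ∧ b = algebraMap P R r) : ∃ x, a * x - x * b = c := by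
  obtain ⟨x, hx⟩ := h (const P R ℕ a * var P R ℕ 0 - var P R ℕ 0 * const P R ℕ b - const P R ℕ c)
    (by
      rintro ⟨s, hs⟩
      exact hab (sylv_const 0 a b (s + c) (by rw [map_add, hs, sub_add_cancel])))
  refine ⟨x 0, ?_⟩
  rw [map_sub, map_sub, map_mul, map_mul, evalAt_const, evalAt_const, evalAt_const,
    evalAt_var] at hx
  exact sub_eq_zero.1 hx

theorem right_inv (h : AlgClosedIn P R ℕ) (a : R) (ha : a ≠ 0) : ∃ b, a * b = 1 := by
  obtain ⟨x, hx⟩ := h (const P R ℕ a * var P R ℕ 0 - 1) (by
    rintro ⟨s, hs⟩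
    apply ha
    have h0 := congrArg (evalAt (fun _ => (0 : R))) hs
    have h1 := congrArg (evalAt (fun _ => (1 : R))) hs
    rw [map_sub, map_mul, evalAt_const, evalAt_const, evalAt_var, map_one] at h0 h1
    rw [h0, mul_zero, mul_one] at h1
    have h2 : (0 : R) - 1 + 1 = a - 1 + 1 := by rw [h1]
    rw [sub_add_cancel, sub_add_cancel] at h2
    exact h2.symm)
  refine ⟨x 0, ?_⟩
  rw [map_sub, map_mul, evalAt_const, evalAt_var, map_one] at hx
  exact sub_eq_zero.1 hx

/-- the structure theorem -/
theorem struct1 (P : Type u) (R : Type v) [Field P] [Ring R] [Algebra P R] [Nontrivial R]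
    (h : AlgClosedIn P R ℕ) :
    (∀ a : R, a ≠ 0 → ∃ b, a * b = 1 ∧ b * a = 1) ∧
    (∀ c : R, (∀ d : R, c * d = d * c) ↔ c ∈ Set.range (algebraMap P R)) ∧
    (∀ a b c : R, (¬ ∃ r : P, a = algebraMap P R r ∧ b = algebraMap P R r) →
      ∃ x, a * x - x * b = c) ∧
    (∀ I : Type w, AlgClosedIn P R I) := by
  refine ⟨fun a ha => ?_, fun c => ⟨fun hc => ?_, ?_⟩, sylv h, allUnknowns h⟩
  · obtain ⟨b, hb⟩ := right_inv h a ha
    have hb0 : b ≠ 0 := by
      rintro rfl
      rw [mul_zero] at hb
      exact zero_ne_one hb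
    obtain ⟨b', hb'⟩ := right_inv h b hb0
    refine ⟨b, hb, ?_⟩
    have : a = b' := by
      calc a = a * (b * b') := by rw [hb', mul_one]
        _ = b' := by rw [← mul_assoc, hb, one_mul]
    rw [this]; exact hb'
  · by_contra hcon
    obtain ⟨x, hx⟩ := sylv h c c 1 (by
      rintro ⟨r, hr, -⟩
      exact hcon ⟨r, hr.symm⟩)
    rw [hc x, sub_self] at hx
    exact zero_ne_one hx
  · rintro ⟨r, rfl⟩ d
    exact Algebra.commutes r d

end Pool.Agent.H59.ACS
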