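import Pool.Graph.R_seed8.W376.CI.Fin

/-!
# Growth of the extremal functions (for `MP_06ac62_an.GrowthExponent`, helper85)
-/

set_option autoImplicit false

namespace Pool.Agent.H59.GE

open Filter Topology Pool.Agent.W646.CI Pool.Agent.W376.CIF

theorem log_aF {K : ℕ} {f : ℂ → ℂ} {η : ℝ → ℝ} {R ε₁ : ℝ} {T0 : ℕ} (hK : 3 ≤ K)
    (hf : Differentiable ℂ f) (h0 : f 0 = 1)
    (hb : ∀ z : ℂ, Real.exp 1 ≤ ‖z‖ → ‖f z‖ ≤ bd K η z) (hc : 1 ≤ 2 * (1 - ε₁) * R ^ 2)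
    (hw : ∀ j : ℕ, (T0 : ℝ) + 1 ≤ tj K j →
      (mj K R ε₁ j : ℝ) ≤ MinMod.aF f (4 * Real.exp (tj K j)))
    {τ : ℝ} (h12 : 12 ≤ τ) (hT : (T0 : ℝ) + 4 ≤ τ) (hη : η τ ≤ 1) :
    (τ / 2) ^ K ≤ Real.log (MinMod.aF f (Real.exp τ)) ∧
      Real.log (MinMod.aF f (Real.exp τ)) ≤ 2 * τ ^ K := by
  have h1 : (1 : ℝ) ≤ τ - 3 := by linarith
  obtain ⟨j, hj⟩ : ∃ j : ℕ, j = ⌈(τ - 3) ^ (2 * K - 2)⌉₊ := ⟨_, rfl⟩
  obtain ⟨h2, h3, -⟩ := tj_ceil hK h1 hj
  have h4 : tj K j ≤ τ - 2 := by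
    have h5 : (1 : ℝ) ≤ (τ - 3) ^ (2 * K - 3) := one_le_pow₀ h1
    have h6 : (tj K j - (τ - 3)) * 1 ≤ (tj K j - (τ - 3)) * (τ - 3) ^ (2 * K - 3) :=
      mul_le_mul_of_nonneg_left h5 (by linarith)
    linarith
  have e1 := Real.add_one_le_exp (1 : ℝ)
  have e2 : (4 : ℝ) ≤ Real.exp 2 := by
    have : Real.exp 2 = Real.exp 1 * Real.exp 1 := by
      rw [← Real.exp_add]; norm_num
    nlinarith
  have h7 : 4 * Real.exp (tj K j) ≤ Real.exp τ := by
    have h8 : Real.exp (tj K j) ≤ Real.exp (τ - 2) := Real.exp_le_exp.2 h4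
    have h9 : Real.exp 2 * Real.exp (τ - 2) = Real.exp τ := by
      rw [← Real.exp_add]; congr 1; ring
    have h10 := Real.exp_pos (tj K j)
    have h11 := Real.exp_pos (τ - 2)
    nlinarith
  have h13 : (T0 : ℝ) + 1 ≤ tj K j := by linarith
  have hA : Real.exp (tj K j ^ K) - 1 ≤ MinMod.aF f (Real.exp τ) :=
    (mj_ge' hc j).trans ((hw j h13).trans (aF_mono hf h0 (by positivity) h7))
  have h14 : (τ - 3) ^ K ≤ tj K j ^ K := pow_le_pow_left₀ (by linarith) h2 K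
  have h15 : (τ / 2) ^ K + 1 ≤ (τ - 3) ^ K := by
    have h16 : (τ / 2) ^ K + 1 ^ K ≤ (τ / 2 + 1) ^ K :=
      pow_add_pow_le (by linarith) (by norm_num) (by omega)
    have h17 : (τ / 2 + 1) ^ K ≤ (τ - 3) ^ K := pow_le_pow_left₀ (by linarith) (by linarith) K
    rw [one_pow] at h16
    linarith
  have h18 : Real.exp ((τ / 2) ^ K) ≤ MinMod.aF f (Real.exp τ) := by
    refine le_trans ?_ hA
    have h19 : Real.exp ((τ / 2) ^ K + 1) ≤ Real.exp (tj K j ^ K) :=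
      Real.exp_le_exp.2 (by linarith)
    rw [Real.exp_add] at h19
    have h20 : 1 ≤ Real.exp ((τ / 2) ^ K) := Real.one_le_exp (by positivity)
    nlinarith
  have hpos : 0 < MinMod.aF f (Real.exp τ) := lt_of_lt_of_le (Real.exp_pos _) h18
  refine ⟨(Real.le_log_iff_exp_le hpos).2 h18, ?_⟩
  have h21 : MinMod.aF f (Real.exp τ) ≤ Real.exp (τ ^ K + 1) := by
    refine (aF_le hf h0 hb (by linarith)).trans ?_
    rw [Real.exp_add, mul_comm]
    exact mul_le_mul_of_nonneg_left (by linarith) (Real.exp_pos _).le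
  have h22 : Real.log (MinMod.aF f (Real.exp τ)) ≤ τ ^ K + 1 :=
    (Real.log_le_iff_le_exp hpos).2 h21
  have h23 : (1 : ℝ) ≤ τ ^ K := one_le_pow₀ (by linarith)
  linarith

theorem hgr (K : ℕ) (f : ℂ → ℂ) (η : ℝ → ℝ) (R ε₁ : ℝ) (T0 : ℕ) (hK : 3 ≤ K)
    (hf : Differentiable ℂ f) (h0 : f 0 = 1) (hη0 : Tendsto η atTop (𝓝 0))
    (_hηn : ∀ τ, 0 ≤ η τ) (hb : ∀ z : ℂ, Real.exp 1 ≤ ‖z‖ → ‖f z‖ ≤ bd K η z)
    (hc : 1 ≤ 2 * (1 - ε₁) * R ^ 2)
    (hw : ∀ j : ℕ, (T0 : ℝ) + 1 ≤ tj K j →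
      (mj K R ε₁ j : ℝ) ≤ MinMod.aF f (4 * Real.exp (tj K j))) :
    Tendsto (fun r : ℝ => Real.log (Real.log (MinMod.aF f r)) / Real.log (Real.log r))
      atTop (𝓝 (K : ℝ)) := by
  have hev : ∀ᶠ τ : ℝ in atTop, 12 ≤ τ ∧ (τ / 2) ^ K ≤ Real.log (MinMod.aF f (Real.exp τ)) ∧
      Real.log (MinMod.aF f (Real.exp τ)) ≤ 2 * τ ^ K := by
    filter_upwards [eventually_ge_atTop (12 : ℝ), eventually_ge_atTop ((T0 : ℝ) + 4),
      hη0.eventually_le_const (by norm_num : (0 : ℝ) < 1)] with τ h1 h2 h3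
    exact ⟨h1, log_aF hK hf h0 hb hc hw h1 h2 h3⟩
  have hG : Tendsto (fun τ : ℝ => Real.log (Real.log (MinMod.aF f (Real.exp τ))) / Real.log τ)
      atTop (𝓝 (K : ℝ)) := by
    have l1 : Tendsto (fun τ : ℝ => (K : ℝ) - K * Real.log 2 / Real.log τ) atTop
        (𝓝 ((K : ℝ) - 0)) :=
      (Real.tendsto_log_atTop.const_div_atTop (K * Real.log 2)).const_sub (K : ℝ)
    have l2 : Tendsto (fun τ : ℝ => (K : ℝ) + Real.log 2 / Real.log τ) atTop
        (𝓝 ((K : ℝ) + 0)) :=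
      (Real.tendsto_log_atTop.const_div_atTop (Real.log 2)).const_add (K : ℝ)
    rw [sub_zero] at l1
    rw [add_zero] at l2
    refine tendsto_of_tendsto_of_tendsto_of_le_of_le' l1 l2 ?_ ?_
    · filter_upwards [hev] with τ ⟨h1, h2, h3⟩
      have hτ : 0 < τ := by linarith
      have hl : 0 < Real.log τ := Real.log_pos (by linarith)
      rw [le_div_iff₀ hl, sub_mul, div_mul_cancel₀ _ hl.ne']
      have h4 : Real.log ((τ / 2) ^ K) ≤ Real.log (Real.log (MinMod.aF f (Real.exp τ))) :=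
        Real.log_le_log (by positivity) h2
      rw [Real.log_pow, Real.log_div hτ.ne' (by norm_num)] at h4
      linarith
    · filter_upwards [hev] with τ ⟨h1, h2, h3⟩
      have hτ : 0 < τ := by linarith
      have hl : 0 < Real.log τ := Real.log_pos (by linarith)
      rw [div_le_iff₀ hl, add_mul, div_mul_cancel₀ _ hl.ne']
      have h5 : 0 < Real.log (MinMod.aF f (Real.exp τ)) := lt_of_lt_of_le (by positivity) h2
      have h4 : Real.log (Real.log (MinMod.aF f (Real.exp τ))) ≤ Real.log (2 * τ ^ K) :=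
        Real.log_le_log h5 h3
      rw [Real.log_mul (by norm_num) (by positivity), Real.log_pow] at h4
      linarith
  refine (hG.comp Real.tendsto_log_atTop).congr' ?_
  filter_upwards [eventually_gt_atTop (0 : ℝ)] with r hr
  simp only [Function.comp_apply, Real.exp_log hr]

end Pool.Agent.H59.GE
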